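import Pool.Agent.H61.HB.Stmts2

/-! # Board hbg (MP_91403e_an), row TWA: trilinear bound with the weight `1/|k|²` -/

set_option autoImplicit false

namespace HB

namespace TWA

/-- Cauchy - Schwarz for series of nonnegative terms -/
theorem cs {ι : Type} (x y : ι → ℝ) (hx : ∀ i, 0 ≤ x i) (hy : ∀ i, 0 ≤ y i)
    (hx2 : Summable fun i => x i ^ 2) (hy2 : Summable fun i => y i ^ 2) :
    (Summable fun i => x i * y i) ∧
      ∑' i, x i * y i ≤ √(∑' i, x i ^ 2) * √(∑' i, y i ^ 2) := by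
  have h := Real.inner_le_Lp_mul_Lq_tsum_of_nonneg Real.HolderConjugate.two_two hx hy
    (by simpa only [Real.rpow_two] using hx2) (by simpa only [Real.rpow_two] using hy2)
  refine ⟨?_, ?_⟩
  · exact Real.summable_mul_of_Lp_Lq_of_nonneg Real.HolderConjugate.two_two hx hy
      (by simpa only [Real.rpow_two] using hx2) (by simpa only [Real.rpow_two] using hy2)
  · simpa only [Real.rpow_two, ← Real.sqrt_eq_rpow] using h

theorem sq_nonneg' (k : Z2) : 0 ≤ sq k := by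
  unfold sq
  positivity

theorem one_le_sq {k : Z2} (hk : k ≠ 0) : 1 ≤ sq k := by
  unfold sq
  have h : k.1 ≠ 0 ∨ k.2 ≠ 0 := by
    by_contra hc
    push Not at hc
    exact hk (Prod.ext hc.1 hc.2)
  have key : ∀ n : ℤ, n ≠ 0 → (1 : ℝ) ≤ (n : ℝ) ^ 2 := by
    intro n hn
    have h1 : (1 : ℤ) ≤ n ^ 2 := by
      have : 0 < n ^ 2 := by positivity
      omega
    exact_mod_cast h1
  rcases h with h | h
  · have := key _ h
    nlinarith [sq_nonneg (k.2 : ℝ)]
  · have := key _ h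
    nlinarith [sq_nonneg (k.1 : ℝ)]

theorem off_sum {f : Z2 → ℂ} (hf : MemS 2 f) : Summable fun k => ‖off f k‖ ^ 2 := by
  refine Summable.of_nonneg_of_le (fun k => by positivity) (fun k => ?_) hf
  have h0 := sq_nonneg' k
  rw [Real.rpow_two]
  have h1 : ‖off f k‖ ^ 2 ≤ ‖f k‖ ^ 2 := by
    unfold off
    split_ifs
    · rw [norm_zero, zero_pow two_ne_zero]
      positivity
    · exact le_rfl
  have h2 : (1 : ℝ) ≤ (1 + sq k) ^ 2 := by nlinarith
  have h3 : (0 : ℝ) ≤ ‖f k‖ ^ 2 := by positivity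
  nlinarith

theorem theta_le (f : Z2 → ℂ) (k : Z2) :
    ‖off f k‖ / sq k ≤ 2 * ((1 + sq k)⁻¹ * ‖off f k‖) := by
  by_cases hk : k = 0
  · subst hk
    have : off f 0 = 0 := if_pos rfl
    rw [this, norm_zero, zero_div, mul_zero, mul_zero]
  · have h1 := one_le_sq hk
    have h2 : (sq k)⁻¹ ≤ 2 * (1 + sq k)⁻¹ := by
      rw [← div_eq_mul_inv, inv_eq_one_div, div_le_div_iff₀ (by linarith) (by linarith)]
      linarith
    rw [div_eq_mul_inv]
    calc ‖off f k‖ * (sq k)⁻¹ ≤ ‖off f k‖ * (2 * (1 + sq k)⁻¹) :=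
          mul_le_mul_of_nonneg_left h2 (norm_nonneg _)
      _ = 2 * ((1 + sq k)⁻¹ * ‖off f k‖) := by ring

theorem theta_nonneg (f : Z2 → ℂ) (k : Z2) : 0 ≤ ‖off f k‖ / sq k :=
  div_nonneg (norm_nonneg _) (sq_nonneg' k)

theorem theta_sum (hSUM : SUMStmt) {f : Z2 → ℂ} (hf : MemS 2 f) :
    (Summable fun k => ‖off f k‖ / sq k) ∧
      ∑' k, ‖off f k‖ / sq k ≤ 2 * √cW * √(flS f) := by
  have hc := cs (fun k : Z2 => (1 + sq k)⁻¹) (fun k => ‖off f k‖)
    (fun k => inv_nonneg.2 (by have := sq_nonneg' k; linarith)) (fun k => norm_nonneg _)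
    (by
      have h0 : Summable fun k : Z2 => ((1 + sq k) ^ 2)⁻¹ := hSUM
      simpa only [inv_pow] using h0) (off_sum hf)
  have hs : Summable fun k => ‖off f k‖ / sq k :=
    Summable.of_nonneg_of_le (theta_nonneg f) (theta_le f) (hc.1.mul_left 2)
  refine ⟨hs, ?_⟩
  have h1 : ∑' k, ‖off f k‖ / sq k ≤ ∑' k, 2 * ((1 + sq k)⁻¹ * ‖off f k‖) :=
    hs.tsum_le_tsum (theta_le f) (hc.1.mul_left 2)
  rw [tsum_mul_left] at h1
  have h2 : ∑' k : Z2, ((1 + sq k)⁻¹) ^ 2 = cW := by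
    unfold cW
    refine tsum_congr fun k => ?_
    rw [inv_pow]
  have h3 := hc.2
  rw [h2] at h3
  calc ∑' k, ‖off f k‖ / sq k ≤ 2 * ∑' k, (1 + sq k)⁻¹ * ‖off f k‖ := h1
    _ ≤ 2 * (√cW * √(flS f)) := by
        refine mul_le_mul_of_nonneg_left ?_ (by norm_num)
        exact h3
    _ = 2 * √cW * √(flS f) := by ring

end TWA

open TWA in
theorem twa_thm (hSUM : SUMStmt) : TWAStmt := by
  intro f a b hf ha hb ha2 hb2
  obtain ⟨hθ, hθle⟩ := theta_sum hSUM hf
  have hin : ∀ k : Z2, (Summable fun l => a l * b (k - l)) ∧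
      ∑' l, a l * b (k - l) ≤ √(∑' l, a l ^ 2) * √(∑' l, b l ^ 2) := by
    intro k
    have hbk : Summable fun l => b (k - l) ^ 2 := by
      have := (Equiv.subLeft k).summable_iff.2 hb2
      exact this
    have htk : ∑' l, b (k - l) ^ 2 = ∑' l, b l ^ 2 :=
      (Equiv.subLeft k).tsum_eq (fun l => b l ^ 2)
    have h := cs a (fun l => b (k - l)) ha (fun l => hb _) ha2 hbk
    rw [htk] at h
    exact h
  have hin0 : ∀ k : Z2, 0 ≤ ∑' l, a l * b (k - l) := fun k =>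
    tsum_nonneg fun l => mul_nonneg (ha l) (hb _)
  set K : ℝ := √(∑' l, a l ^ 2) * √(∑' l, b l ^ 2) with hK
  have hK0 : 0 ≤ K := by positivity
  have hrow : ∀ k : Z2, ∑' l, ‖off f k‖ / sq k * (a l * b (k - l)) =
      ‖off f k‖ / sq k * ∑' l, a l * b (k - l) := fun k => tsum_mul_left
  have hrs : Summable fun k : Z2 => ‖off f k‖ / sq k * ∑' l, a l * b (k - l) := by
    refine Summable.of_nonneg_of_le (fun k => mul_nonneg (theta_nonneg f k) (hin0 k))
      (fun k => ?_) (hθ.mul_right K)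
    exact mul_le_mul_of_nonneg_left (hin k).2 (theta_nonneg f k)
  have hS : Summable (fun x : Z2 × Z2 => ‖off f x.1‖ / sq x.1 * (a x.2 * b (x.1 - x.2))) := by
    rw [summable_prod_of_nonneg]
    · refine ⟨fun k => ?_, ?_⟩
      · exact (hin k).1.mul_left (‖off f k‖ / sq k)
      · refine hrs.congr fun k => ?_
        exact (hrow k).symm
    · intro x
      exact mul_nonneg (theta_nonneg f x.1) (mul_nonneg (ha _) (hb _))
  refine ⟨hS, ?_⟩
  rw [hS.tsum_prod]
  calc ∑' k : Z2, ∑' l : Z2, ‖off f k‖ / sq k * (a l * b (k - l))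
      = ∑' k : Z2, ‖off f k‖ / sq k * ∑' l, a l * b (k - l) := tsum_congr hrow
    _ ≤ ∑' k : Z2, ‖off f k‖ / sq k * K :=
        hrs.tsum_le_tsum (fun k => mul_le_mul_of_nonneg_left (hin k).2 (theta_nonneg f k))
          (hθ.mul_right K)
    _ = (∑' k : Z2, ‖off f k‖ / sq k) * K := tsum_mul_right
    _ ≤ 2 * √cW * √(flS f) * K := mul_le_mul_of_nonneg_right hθle hK0

end HB
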