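import Pool.Agent.H61.HB.Stmts2
import Pool.Agent.H80.HB.TWA

/-! # Board hbg (MP_91403e_an), row GRC: continuity in time of the quadratic functionals -/

set_option autoImplicit false

namespace HB

namespace GRC

open TWA (sq_nonneg' one_le_sq)

/-- Fourier multiplier -/
noncomputable def mult (m : Z2 → ℝ) (u : V) : V := fun j k => (m k : ℂ) * u j k

theorem nsq_sum (u : V) : nsq 2 u = ∑ j, ∑' k, (1 + sq k) ^ 2 * ‖u j k‖ ^ 2 := by
  unfold nsq nqS
  simp only [Real.rpow_two]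

theorem mult_bound (_hM : MMBStmt) {m : Z2 → ℝ} (hm : ∀ k, m k ^ 2 ≤ 1) {u : V}
    (hu : Mem 2 u) : Mem 2 (mult m u) ∧ nsq 2 (mult m u) ≤ nsq 2 u := by
  have key : ∀ (j : Fin 2) (k : Z2), (1 + sq k) ^ (2 : ℝ) * ‖mult m u j k‖ ^ 2 ≤
      (1 + sq k) ^ (2 : ℝ) * ‖u j k‖ ^ 2 := by
    intro j k
    have h0 := sq_nonneg' k
    refine mul_le_mul_of_nonneg_left ?_ (by rw [Real.rpow_two]; positivity)
    unfold mult
    rw [norm_mul, mul_pow, Complex.norm_real, Real.norm_eq_abs, sq_abs]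
    have h1 : (0 : ℝ) ≤ ‖u j k‖ ^ 2 := by positivity
    nlinarith [hm k]
  have hmem : Mem 2 (mult m u) := by
    intro j
    refine Summable.of_nonneg_of_le (fun k => ?_) (key j) (hu j)
    have h0 := sq_nonneg' k
    rw [Real.rpow_two]
    positivity
  refine ⟨hmem, ?_⟩
  unfold nsq
  refine Finset.sum_le_sum fun j _ => ?_
  exact (hmem j).tsum_le_tsum (key j) (hu j)

theorem cts_two (hM : MMBStmt) {s T : ℝ} (hs : 2 ≤ s) {G : ℝ → V} (hG : Cts s T G) :
    Cts 2 T G := by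
  obtain ⟨hmem, hlim⟩ := hG
  refine ⟨fun t ht => (hM.2.2.2.2.1 2 s (G t) hs (hmem t ht)).1, fun t ht => ?_⟩
  refine squeeze_zero' (Filter.Eventually.of_forall fun r => hM.2.2.2.1 2 _) ?_ (hlim t ht)
  filter_upwards [self_mem_nhdsWithin] with r hr
  exact (hM.2.2.2.2.1 2 s _ hs (hM.2.2.2.2.2 s _ _ (hmem r hr) (hmem t ht)).1).2

theorem cts_mult (hM : MMBStmt) {m : Z2 → ℝ} (hm : ∀ k, m k ^ 2 ≤ 1) {T : ℝ} {G : ℝ → V}
    (hG : Cts 2 T G) : Cts 2 T (fun t => mult m (G t)) := by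
  obtain ⟨hmem, hlim⟩ := hG
  refine ⟨fun t ht => (mult_bound hM hm (hmem t ht)).1, fun t ht => ?_⟩
  refine squeeze_zero' (Filter.Eventually.of_forall fun r => hM.2.2.2.1 2 _) ?_ (hlim t ht)
  filter_upwards [self_mem_nhdsWithin] with r hr
  have h1 : mult m (G r) - mult m (G t) = mult m (G r - G t) := by
    funext j k
    show (m k : ℂ) * G r j k - (m k : ℂ) * G t j k = (m k : ℂ) * (G r j k - G t j k)
    ring
  rw [h1]
  exact (mult_bound hM hm (hM.2.2.2.2.2 2 _ _ (hmem r hr) (hmem t ht)).1).2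

/-- continuity of a quadratic functional dominated by the `H²` norm -/
theorem gen (hM : MMBStmt) (hC : CONStmt) {T : ℝ} {G : ℝ → V} (hG : Cts 2 T G)
    (ω : Z2 → ℝ) (h0 : ∀ k, 0 ≤ ω k) (h1 : ∀ k, ω k ≤ (1 + sq k) ^ 2) :
    ContinuousOn (fun t => ∑ j, ∑' k, ω k * ‖G t j k‖ ^ 2) (Set.Icc 0 T) := by
  have hm : ∀ k, (√(ω k) / (1 + sq k)) ^ 2 ≤ 1 := by
    intro k
    have h2 := sq_nonneg' k
    rw [div_pow, Real.sq_sqrt (h0 k), div_le_one (by positivity)]
    exact h1 k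
  have h := (hC 2 T _ (cts_mult hM hm hG)).2
  refine h.congr fun t _ => ?_
  show ∑ j, ∑' k, ω k * ‖G t j k‖ ^ 2 = nsq 2 (mult (fun k => √(ω k) / (1 + sq k)) (G t))
  rw [nsq_sum]
  refine Finset.sum_congr rfl fun j _ => tsum_congr fun k => ?_
  have h2 := sq_nonneg' k
  have h3 : (1 + sq k) ≠ 0 := by positivity
  unfold mult
  rw [norm_mul, mul_pow, Complex.norm_real, Real.norm_eq_abs, sq_abs, div_pow,
    Real.sq_sqrt (h0 k)]
  field_simp

theorem cts_sub (hM : MMBStmt) {s T : ℝ} {u v : ℝ → V} (hu : Cts s T u) (hv : Cts s T v) :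
    Cts s T (fun t => v t - u t) := by
  refine ⟨fun t ht => (hM.2.2.2.2.2 s _ _ (hv.1 t ht) (hu.1 t ht)).1, fun t ht => ?_⟩
  have h1 := ((hv.2 t ht).const_mul 2).add ((hu.2 t ht).const_mul 2)
  rw [mul_zero, add_zero] at h1
  refine squeeze_zero' (Filter.Eventually.of_forall fun r => hM.2.2.2.1 s _) ?_ h1
  filter_upwards [self_mem_nhdsWithin] with r hr
  have h2 : v r - u r - (v t - u t) = (v r - v t) - (u r - u t) := by
    funext j k
    show v r j k - u r j k - (v t j k - u t j k) = v r j k - v t j k - (u r j k - u t j k)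
    ring
  rw [h2]
  exact (hM.2.2.2.2.2 s _ _ (hM.2.2.2.2.2 s _ _ (hv.1 r hr) (hv.1 t ht)).1
    (hM.2.2.2.2.2 s _ _ (hu.1 r hr) (hu.1 t ht)).1).2.2.1

theorem flu_cont (hM : MMBStmt) (hC : CONStmt) {T : ℝ} {G : ℝ → V} (hG : Cts 2 T G) :
    ContinuousOn (fun t => flu (G t)) (Set.Icc 0 T) := by
  classical
  have h := gen hM hC hG (fun k => if k = 0 then 0 else 1)
    (fun k => by split_ifs <;> norm_num)
    (fun k => by
      have h2 := sq_nonneg' k
      split_ifs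
      · positivity
      · nlinarith)
  refine h.congr fun t _ => ?_
  show ∑ j, ∑' k, ‖off (G t j) k‖ ^ 2 = _
  refine Finset.sum_congr rfl fun j _ => tsum_congr fun k => ?_
  unfold off
  by_cases hk : k = 0
  · rw [if_pos hk, if_pos hk, norm_zero]
    ring
  · rw [if_neg hk, if_neg hk, one_mul]

theorem hm_cont (hM : MMBStmt) (hC : CONStmt) {T : ℝ} {G : ℝ → V} (hG : Cts 2 T G) :
    ContinuousOn (fun t => hm (G t)) (Set.Icc 0 T) := by
  classical
  have h := gen hM hC hG (fun k => if k = 0 then 0 else (sq k)⁻¹)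
    (fun k => by
      have h2 := sq_nonneg' k
      split_ifs
      · exact le_rfl
      · positivity)
    (fun k => by
      have h2 := sq_nonneg' k
      split_ifs with hk
      · positivity
      · have h3 := one_le_sq hk
        have h4 : (sq k)⁻¹ ≤ 1 := inv_le_one_of_one_le₀ h3
        nlinarith)
  refine h.congr fun t _ => ?_
  show ∑ j, ∑' k, ‖off (G t j) k‖ ^ 2 / sq k = _
  refine Finset.sum_congr rfl fun j _ => tsum_congr fun k => ?_
  unfold off
  by_cases hk : k = 0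
  · rw [if_pos hk, if_pos hk, norm_zero]
    simp
  · rw [if_neg hk, if_neg hk, div_eq_inv_mul]

theorem grd_cont (hM : MMBStmt) (hC : CONStmt) {T : ℝ} {G : ℝ → V} (hG : Cts 2 T G) :
    ContinuousOn (fun t => grd (G t)) (Set.Icc 0 T) :=
  gen hM hC hG sq sq_nonneg' fun k => by
    have h2 := sq_nonneg' k
    nlinarith

theorem dsq_cont (hM : MMBStmt) (hC : CONStmt) {T : ℝ} {G : ℝ → V} (hG : Cts 2 T G) :
    ContinuousOn (fun t => dsq (G t)) (Set.Icc 0 T) :=
  gen hM hC hG (fun k => sq k ^ 2) (fun k => by positivity) fun k => by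
    have h2 := sq_nonneg' k
    nlinarith

theorem mu_cont (hC : CONStmt) {T : ℝ} {G : ℝ → V} (hG : Cts 2 T G) :
    ContinuousOn (fun t => mu (G t)) (Set.Icc 0 T) := by
  have h := (hC 2 T G hG).1
  unfold mu
  exact continuousOn_finsetSum _ fun j _ => ((h j 0).norm).pow 2

end GRC

open GRC in
theorem grc_thm (hM : MMBStmt) (hC : CONStmt) : GRCStmt := by
  intro ν s T u v hs hu hv
  have hu2 := cts_two hM hs hu.cts
  have hv2 := cts_two hM hs hv.cts
  have hw2 := cts_sub hM hu2 hv2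
  exact ⟨flu_cont hM hC hu2, grd_cont hM hC hu2, dsq_cont hM hC hu2, hm_cont hM hC hw2,
    mu_cont hC hw2, grd_cont hM hC hw2⟩

end HB
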